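import Pool.Agent.helper5.EY.St

set_option autoImplicit false
set_option linter.unusedSectionVars false

/-!
# EY-K3: `Rz q 3 (q + 2)`: the plane curve `x₀^(q-2) x₁² x₂ + x₂^(q+1)` with a `D_(q+2)` singularity at `(1, 0, 0)`
-/

namespace EY

open MvPolynomial LinearAlgebra.Projectivization

noncomputable section

namespace K3h53

abbrev V := Option (Fin 2)

/-- the form -/
def F (q : ℕ) : MvPolynomial V ℂ :=
  X none ^ (q - 2) * X (some 0) ^ 2 * X (some 1) + X (some 1) ^ (q + 1)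

lemma F_hom {q : ℕ} (hq : 3 ≤ q) : (F q).IsHomogeneous (q + 1) := by
  unfold F
  refine IsHomogeneous.add ?_ ?_
  · have h1 := (((isHomogeneous_X (R := ℂ) (none : V)).pow (q - 2)).mul
      ((isHomogeneous_X (R := ℂ) (some 0 : V)).pow 2)).mul (isHomogeneous_X (R := ℂ) (some 1 : V))
    have e : 1 * (q - 2) + 1 * 2 + 1 = q + 1 := by omega
    rwa [e] at h1
  · have h1 := (isHomogeneous_X (R := ℂ) (some 1 : V)).pow (q + 1)
    rwa [one_mul] at h1

lemma d0 {q : ℕ} : pderiv none (F q) =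
    C ((q - 2 : ℕ) : ℂ) * (X none ^ (q - 3) * X (some 0) ^ 2 * X (some 1)) := by
  unfold F
  simp only [map_add, Derivation.leibniz, Derivation.leibniz_pow, pderiv_X, smul_eq_mul, nsmul_eq_mul]
  have h : q - 2 - 1 = q - 3 := by omega
  simp [h]
  ring

lemma d1 {q : ℕ} : pderiv (some 0) (F q) = 2 * (X none ^ (q - 2) * X (some 0) * X (some 1)) := by
  unfold F
  simp only [map_add, Derivation.leibniz, Derivation.leibniz_pow, pderiv_X, smul_eq_mul, nsmul_eq_mul]
  simp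
  ring

lemma d2 {q : ℕ} : pderiv (some 1) (F q) =
    X none ^ (q - 2) * X (some 0) ^ 2 + C ((q + 1 : ℕ) : ℂ) * X (some 1) ^ q := by
  unfold F
  simp only [map_add, Derivation.leibniz, Derivation.leibniz_pow, pderiv_X, smul_eq_mul, nsmul_eq_mul]
  simp

/-- the local equations -/
def G (q : ℕ) : Fin 2 → MvPolynomial (Fin 2) ℂ :=
  ![2 * (X 0 * X 1) - C ((q - 2 : ℕ) : ℂ) * (X 0 ^ 3 * X 1),
    (X 0 ^ 2 + C ((q + 1 : ℕ) : ℂ) * X 1 ^ q) - C ((q - 2 : ℕ) : ℂ) * (X 0 ^ 2 * X 1 ^ 2)]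

/-- the leading forms -/
def L (q : ℕ) : Fin 2 → MvPolynomial (Fin 2) ℂ :=
  ![2 * (X 0 * X 1), X 0 ^ 2 + C ((q + 1 : ℕ) : ℂ) * X 1 ^ q]

lemma dehom_C' (a : ℂ) : dehom (κ' := Fin 2) (C a) = C a := by
  rw [← MvPolynomial.algebraMap_eq, ← MvPolynomial.algebraMap_eq, AlgHom.commutes]

lemma eqs (q : ℕ) (j : V) :
    dehom (pderiv j (F q) - sl (1 : Matrix V V ℂ) j * pderiv none (F q)) =
      j.elim 0 (G q) := by
  have hsl : sl (1 : Matrix V V ℂ) j = X j := by
    unfold sl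
    rw [Finset.sum_eq_single j]
    · rw [Matrix.one_apply_eq, C_1, one_mul]
    · intro k _ hk
      rw [Matrix.one_apply_ne (Ne.symm hk), C_0, zero_mul]
    · intro h
      exact absurd (Finset.mem_univ j) h
  rw [hsl]
  rcases j with _ | j
  · simp only [map_sub, map_mul, dehom_X_none, one_mul, sub_self, Option.elim]
  · fin_cases j
    · simp only [Fin.zero_eta, Fin.isValue, d0, d1]
      simp only [map_sub, map_mul, map_pow, dehom_X_none, dehom_X_some, dehom_C', one_pow, one_mul, map_ofNat]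
      simp only [G, Option.elim]
      simp
      ring
    · simp only [Fin.mk_one, Fin.isValue, d0, d2]
      simp only [map_sub, map_mul, map_pow, map_add, dehom_X_none, dehom_X_some, dehom_C', one_pow, one_mul]
      simp only [G, Option.elim]
      simp
      ring

lemma aff_eq (q : ℕ) : affIdeal (F q) (1 : Matrix V V ℂ) none = Ideal.span (Set.range (G q)) := by
  unfold affIdeal
  apply le_antisymm
  · rw [Ideal.span_le]
    rintro _ ⟨j, rfl⟩
    simp only []
    rw [eqs]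
    rcases j with _ | j
    · exact Ideal.zero_mem _
    · exact Ideal.subset_span ⟨j, rfl⟩
  · rw [Ideal.span_le]
    rintro _ ⟨j, rfl⟩
    exact Ideal.subset_span ⟨some j, (eqs q (some j))⟩

lemma lead {q : ℕ} (hq : 3 ≤ q) (i : Fin 2) :
    Lead (![q, 2] : Fin 2 → ℕ) ((![q + 2, 2 * q] : Fin 2 → ℕ) i) (G q i) (L q i) := by
  have x0 : wh (![q, 2] : Fin 2 → ℕ) q (X 0 : MvPolynomial (Fin 2) ℂ) := wh_X (![q, 2] : Fin 2 → ℕ) 0
  have x1 : wh (![q, 2] : Fin 2 → ℕ) 2 (X 1 : MvPolynomial (Fin 2) ℂ) := wh_X (![q, 2] : Fin 2 → ℕ) 1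
  have two : (2 : MvPolynomial (Fin 2) ℂ) = C 2 := (map_ofNat C 2).symm
  fin_cases i
  · simp only [G, L, Fin.zero_eta, Fin.isValue, Matrix.cons_val_zero]
    constructor
    · rw [two]
      exact (wh_C_mul 2 (wh_mul x0 x1)).wlo
    · have e : 2 * (X 0 * X 1) - C ((q - 2 : ℕ) : ℂ) * (X 0 ^ 3 * X 1) - 2 * (X 0 * X 1) =
          -(C ((q - 2 : ℕ) : ℂ) * (X 0 ^ 3 * X 1) : MvPolynomial (Fin 2) ℂ) := by ring
      rw [e]
      exact wlo_neg (wlo_mono (by omega) (wh_C_mul _ (wh_mul (wh_pow x0 3) x1)).wlo)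
  · simp only [G, L, Fin.mk_one, Fin.isValue, Matrix.cons_val_one, Matrix.cons_val_fin_one]
    constructor
    · apply wlo_add
      · exact wlo_mono (by omega) (wh_pow x0 2).wlo
      · exact (wh_C_mul _ (wh_pow x1 q)).wlo
    · have e : (X 0 ^ 2 + C ((q + 1 : ℕ) : ℂ) * X 1 ^ q) - C ((q - 2 : ℕ) : ℂ) * (X 0 ^ 2 * X 1 ^ 2) -
          (X 0 ^ 2 + C ((q + 1 : ℕ) : ℂ) * X 1 ^ q) =
          -(C ((q - 2 : ℕ) : ℂ) * (X 0 ^ 2 * X 1 ^ 2) : MvPolynomial (Fin 2) ℂ) := by ring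
      rw [e]
      exact wlo_neg (wlo_mono (by omega) (wh_C_mul _ (wh_mul (wh_pow x0 2) (wh_pow x1 2))).wlo)

lemma whL {q : ℕ} (i : Fin 2) :
    wh (![q, 2] : Fin 2 → ℕ) ((![q + 2, 2 * q] : Fin 2 → ℕ) i) (L q i) := by
  have x0 : wh (![q, 2] : Fin 2 → ℕ) q (X 0 : MvPolynomial (Fin 2) ℂ) := wh_X (![q, 2] : Fin 2 → ℕ) 0
  have x1 : wh (![q, 2] : Fin 2 → ℕ) 2 (X 1 : MvPolynomial (Fin 2) ℂ) := wh_X (![q, 2] : Fin 2 → ℕ) 1
  have two : (2 : MvPolynomial (Fin 2) ℂ) = C 2 := (map_ofNat C 2).symm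
  fin_cases i
  · simp only [L, Fin.zero_eta, Fin.isValue, Matrix.cons_val_zero]
    rw [two]
    exact wh_C_mul 2 (wh_mul x0 x1)
  · simp only [L, Fin.mk_one, Fin.isValue, Matrix.cons_val_one, Matrix.cons_val_fin_one]
    have h := wh_pow x0 2
    rw [mul_comm q 2] at h
    exact wh_add h (wh_C_mul _ (wh_pow x1 q))

lemma mul_at {q : ℕ} (hq : 3 ≤ q) : mulAt (affIdeal (F q) (1 : Matrix V V ℂ) none) 0 = q + 2 := by
  rw [aff_eq]
  have h := wBez (w := (![q, 2] : Fin 2 → ℕ)) (f := G q) (g := L q) (d := (![q + 2, 2 * q] : Fin 2 → ℕ))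
    (fun i => by fin_cases i <;> simp <;> omega) (fun i => by fin_cases i <;> simp <;> omega)
    (fun i => whL i)
    (fun x hx => by
      have h0 := hx 0
      have h1 := hx 1
      simp only [L, Fin.isValue, Matrix.cons_val_zero, Matrix.cons_val_one, Matrix.cons_val_fin_one, map_mul,
        map_add, map_pow, eval_X, eval_C, map_ofNat] at h0 h1
      have hq1 : ((q + 1 : ℕ) : ℂ) ≠ 0 := by exact_mod_cast Nat.succ_ne_zero q
      have h2 : x 0 = 0 ∧ x 1 = 0 := by
        rcases mul_eq_zero.mp h0 with h | h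
        · norm_num at h
        rcases mul_eq_zero.mp h with h | h
        · rw [h] at h1
          have h3 : x 1 ^ q = 0 := by
            have : ((q + 1 : ℕ) : ℂ) * x 1 ^ q = 0 := by rw [← h1]; ring
            exact (mul_eq_zero.mp this).resolve_left hq1
          exact ⟨h, pow_eq_zero_iff (by omega) |>.mp h3⟩
        · rw [h, zero_pow (by omega), mul_zero, add_zero] at h1
          exact ⟨pow_eq_zero_iff (by omega) |>.mp h1, h⟩
      funext i
      fin_cases i
      · exact h2.1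
      · exact h2.2)
    (fun i => lead hq i)
  simp only [Fin.prod_univ_two, Fin.isValue, Matrix.cons_val_zero, Matrix.cons_val_one,
    Matrix.cons_val_fin_one] at h
  have h3 : mulAt (Ideal.span (Set.range (G q))) 0 * (q * 2) = (q + 2) * (q * 2) := by rw [h]; ring
  exact Nat.eq_of_mul_eq_mul_right (by omega) h3

/-- the point `(a, b, c)` -/
def mk (a b c : ℂ) : V → ℂ := fun o => o.elim a ![b, c]

lemma mk_eta (x : V → ℂ) : x = mk (x none) (x (some 0)) (x (some 1)) := by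
  funext o
  rcases o with _ | i
  · rfl
  · fin_cases i <;> rfl

lemma sl1 (j : V) : sl (1 : Matrix V V ℂ) j = X j := by
  unfold sl
  rw [Finset.sum_eq_single j]
  · rw [Matrix.one_apply_eq, C_1, one_mul]
  · intro k _ hk
    rw [Matrix.one_apply_ne (Ne.symm hk), C_0, zero_mul]
  · intro h
    exact absurd (Finset.mem_univ j) h

lemma finA {q : ℕ} (hq : 3 ≤ q) : {t : ℂ | ((q - 2 : ℕ) : ℂ) * t ^ 2 = 2}.Finite := by
  have h1 : (Polynomial.C ((q - 2 : ℕ) : ℂ) * Polynomial.X ^ 2 - Polynomial.C 2) ≠ 0 := by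
    intro h
    have h2 := congrArg (Polynomial.eval 0) h
    simp at h2
  refine (Polynomial.finite_setOf_isRoot h1).subset ?_
  intro t ht
  have ht' : ((q - 2 : ℕ) : ℂ) * t ^ 2 = 2 := ht
  show Polynomial.eval t _ = 0
  rw [Polynomial.eval_sub, Polynomial.eval_mul, Polynomial.eval_C, Polynomial.eval_pow, Polynomial.eval_X,
    Polynomial.eval_C, ht', sub_self]

lemma finB {q : ℕ} (hq : 3 ≤ q) : {t : ℂ | 2 + ((q - 2 : ℕ) : ℂ) * (((q + 1 : ℕ) : ℂ) * t ^ q) -
    2 * (((q - 2 : ℕ) : ℂ) * t ^ 2) = 0}.Finite := by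
  have h1 : (Polynomial.C 2 + Polynomial.C ((q - 2 : ℕ) : ℂ) * (Polynomial.C ((q + 1 : ℕ) : ℂ) * Polynomial.X ^ q) -
      Polynomial.C 2 * (Polynomial.C ((q - 2 : ℕ) : ℂ) * Polynomial.X ^ 2)) ≠ 0 := by
    intro h
    have h2 := congrArg (Polynomial.eval 0) h
    simp [show q ≠ 0 by omega] at h2
  refine (Polynomial.finite_setOf_isRoot h1).subset ?_
  intro t ht
  show Polynomial.eval t _ = 0
  rw [← (show _ = (0 : ℂ) from ht)]
  simp

lemma trich {q : ℕ} (hq : 3 ≤ q) (x : V → ℂ) (hx : IsEig (F q) (1 : Matrix V V ℂ) x) :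
    (x (some 0) = 0 ∧ (x none = 0 ∨ x (some 1) = 0)) ∨ (x none = 0 ∧ x (some 1) = 0) ∨
      ∃ b c : ℂ, ((q - 2 : ℕ) : ℂ) * b ^ 2 = 2 ∧ 2 + ((q - 2 : ℕ) : ℂ) * (((q + 1 : ℕ) : ℂ) * c ^ q) -
        2 * (((q - 2 : ℕ) : ℂ) * c ^ 2) = 0 ∧ x (some 0) = x none * b ∧ x (some 1) = x none * c := by
  have h01 := hx none (some 0)
  have h12 := hx (some 0) (some 1)
  have h02 := hx none (some 1)
  rw [sl1, sl1, d0, d1] at h01
  rw [sl1, sl1, d1, d2] at h12
  rw [sl1, sl1, d0, d2] at h02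
  simp only [map_sub, map_mul, map_add, map_pow, eval_X, eval_C, map_ofNat] at h01 h12 h02
  set a := x none
  set b := x (some 0)
  set c := x (some 1)
  set k : ℂ := ((q - 2 : ℕ) : ℂ) with hk
  set l : ℂ := ((q + 1 : ℕ) : ℂ) with hl
  have hl0 : l ≠ 0 := by rw [hl]; exact_mod_cast Nat.succ_ne_zero q
  have hk0 : k ≠ 0 := by rw [hk]; exact_mod_cast (show q - 2 ≠ 0 by omega)
  obtain ⟨r, rfl⟩ : ∃ r, q = r + 3 := ⟨q - 3, by omega⟩
  have e1 : r + 3 - 3 = r := by omega
  have e2 : r + 3 - 2 = r + 1 := by omega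
  rw [e1] at h01 h02
  rw [e2] at h01 h02 h12
  by_cases hb : b = 0
  · left
    refine ⟨hb, ?_⟩
    rw [hb] at h02
    have h3 : a * (l * c ^ (r + 3)) = 0 := by rw [← h02]; ring
    rcases mul_eq_zero.mp h3 with h | h
    · exact Or.inl h
    · exact Or.inr ((pow_eq_zero_iff (by omega)).mp ((mul_eq_zero.mp h).resolve_left hl0))
  · right
    have h12' : a ^ (r + 1) * b ^ 2 + l * c ^ (r + 3) - 2 * (a ^ (r + 1) * c ^ 2) = 0 := by
      have : b * (a ^ (r + 1) * b ^ 2 + l * c ^ (r + 3) - 2 * (a ^ (r + 1) * c ^ 2)) = 0 := by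
        rw [← h12]; ring
      exact (mul_eq_zero.mp this).resolve_left hb
    by_cases hc : c = 0
    · left
      refine ⟨?_, hc⟩
      rw [hc] at h12'
      have h3 : a ^ (r + 1) * b ^ 2 = 0 := by rw [← h12']; simp
      rcases mul_eq_zero.mp h3 with h | h
      · exact (pow_eq_zero_iff (by omega)).mp h
      · exact absurd ((pow_eq_zero_iff (by omega)).mp h) hb
    · right
      have ha : a ≠ 0 := by
        intro ha
        rw [ha, zero_pow (by omega), zero_mul, zero_mul, mul_zero, zero_add, sub_zero] at h12'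
        rcases mul_eq_zero.mp h12' with h | h
        · exact hl0 h
        · exact hc ((pow_eq_zero_iff (by omega)).mp h)
      have h4 : k * b ^ 2 = 2 * a ^ 2 := by
        have h5 : (a ^ r * b * c) * (2 * a ^ 2 - k * b ^ 2) = 0 := by rw [← h01]; ring
        have h6 := (mul_eq_zero.mp h5).resolve_left
          (mul_ne_zero (mul_ne_zero (pow_ne_zero _ ha) hb) hc)
        linear_combination -h6
      refine ⟨b / a, c / a, ?_, ?_, by field_simp, by field_simp⟩
      · rw [div_pow]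
        field_simp
        linear_combination h4
      · have h7 : a ^ (r + 3) * (2 + k * (l * (c / a) ^ (r + 3)) - 2 * (k * (c / a) ^ 2)) = 0 := by
          have h8 : a ^ (r + 3) * (c / a) ^ (r + 3) = c ^ (r + 3) := by
            rw [← mul_pow, mul_div_cancel₀ _ ha]
          have h9 : a ^ (r + 3) * (c / a) ^ 2 = a ^ (r + 1) * c ^ 2 := by
            have h10 : a ^ (r + 3) = a ^ (r + 1) * a ^ 2 := by ring
            rw [h10, mul_assoc, ← mul_pow, mul_div_cancel₀ _ ha]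
          have h11 : a ^ (r + 3) * (2 + k * (l * (c / a) ^ (r + 3)) - 2 * (k * (c / a) ^ 2)) =
              2 * a ^ (r + 3) + k * l * (a ^ (r + 3) * (c / a) ^ (r + 3)) -
                2 * k * (a ^ (r + 3) * (c / a) ^ 2) := by ring
          rw [h11, h8, h9]
          have h12 : (2 : ℂ) * a ^ (r + 3) = a ^ (r + 1) * (k * b ^ 2) := by rw [h4]; ring
          rw [h12]
          linear_combination k * h12'
        exact (mul_eq_zero.mp h7).resolve_left (pow_ne_zero _ ha)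

lemma projFin {q : ℕ} (hq : 3 ≤ q) : ProjFin {x | IsEig (F q) (1 : Matrix V V ℂ) x} := by
  refine ⟨{mk 1 0 0, mk 0 1 0, mk 0 0 1} ∪ (fun p : ℂ × ℂ => mk 1 p.1 p.2) ''
    ({t : ℂ | ((q - 2 : ℕ) : ℂ) * t ^ 2 = 2} ×ˢ {t : ℂ | 2 + ((q - 2 : ℕ) : ℂ) * (((q + 1 : ℕ) : ℂ) * t ^ q) -
    2 * (((q - 2 : ℕ) : ℂ) * t ^ 2) = 0}), ?_, ?_⟩
  · exact (Set.toFinite _).union (((finA hq).prod (finB hq)).image _)
  · intro x hx
    rcases trich hq x hx with ⟨h1, h2 | h2⟩ | ⟨h1, h2⟩ | ⟨b, c, h1, h2, h3, h4⟩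
    · refine ⟨mk 0 0 1, by simp, x (some 1), ?_⟩
      rw [mk_eta x, h1, h2]
      funext o
      rcases o with _ | i
      · simp [mk]
      · fin_cases i <;> simp [mk]
    · refine ⟨mk 1 0 0, by simp, x none, ?_⟩
      rw [mk_eta x, h1, h2]
      funext o
      rcases o with _ | i
      · simp [mk]
      · fin_cases i <;> simp [mk]
    · refine ⟨mk 0 1 0, by simp, x (some 0), ?_⟩
      rw [mk_eta x, h1, h2]
      funext o
      rcases o with _ | i
      · simp [mk]
      · fin_cases i <;> simp [mk]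
    · refine ⟨mk 1 b c, Or.inr ⟨(b, c), ⟨h1, h2⟩, rfl⟩, x none, ?_⟩
      rw [mk_eta x, h3, h4]
      funext o
      rcases o with _ | i
      · simp [mk]
      · fin_cases i <;> simp [mk]

/-- a form in three variables with the standard metric and finite eigenscheme gives `Rz` -/
theorem rz_std {q m : ℕ} (f : MvPolynomial V ℂ) (hf : f.IsHomogeneous (q + 1))
    (hfin : ProjFin {x | IsEig f (1 : Matrix V V ℂ) x})
    (hz : ∀ g ∈ affIdeal f (1 : Matrix V V ℂ) none, eval (0 : Fin 2 → ℂ) g = 0)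
    (hm : mulAt (affIdeal f (1 : Matrix V V ℂ) none) 0 = m) : Rz q 3 m := by
  obtain ⟨T, hT, hT'⟩ := hfin
  have heig : ∀ x : V → ℂ, x none = 1 →
      (∀ g ∈ affIdeal f (1 : Matrix V V ℂ) none, eval (fun k => x (some k)) g = 0) →
        IsEig f (1 : Matrix V V ℂ) x := by
    intro x hx hg j k
    have h1 := hg _ (dehom_minor (S := (1 : Matrix V V ℂ)) f none j k)
    rw [eval_dehom] at h1
    have h2 : (fun o : V => o.elim (1 : ℂ) (fun k => x (some k))) = x := by
      funext o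
      cases o with
      | none => exact hx.symm
      | some k => rfl
    rw [h2] at h1
    exact h1
  obtain ⟨f', h1, h2, l, v, h3, h4, h5⟩ := transfer (N := 3) (κ' := Fin 2)
    (by simp) f hf (1 : Matrix V V ℂ) (by rw [Matrix.IsSymm, Matrix.transpose_one])
    (by rw [Matrix.det_one]; exact one_ne_zero) none
    (fun j => by rw [Matrix.one_apply]; simp only [eq_comm]) 0 hz
    (by
      classical
      refine ((hT.image fun t : V → ℂ => fun k : Fin 2 => (t none)⁻¹ * t (some k))).subset ?_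
      intro p hp
      obtain ⟨t, ht, c, hc⟩ := hT' (fun o => o.elim 1 p) (heig _ rfl hp)
      refine ⟨t, ht, ?_⟩
      have h0 : c * t none = 1 := (congrFun hc none).symm
      have hc' : c = (t none)⁻¹ := eq_inv_of_mul_eq_one_left h0
      funext k
      have h8 : p k = c * t (some k) := congrFun hc (some k)
      rw [h8, hc'])
    ⟨T, hT, fun x _ hx => hT' x hx⟩
  exact ⟨f', h1, h2, l, v, h3, h4, h5.trans hm⟩

end K3h53

/-- **(k = 3)** `Rz q 3 (q + 2)` for all `q ≥ 3` -/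
theorem rz3_D {q : ℕ} (hq : 3 ≤ q) : Rz q 3 (q + 2) := by
  have hm := K3h53.mul_at hq
  refine K3h53.rz_std (K3h53.F q) (K3h53.F_hom hq) (K3h53.projFin hq) ?_ hm
  intro g hg
  by_contra h
  exact (show mulAt (affIdeal (K3h53.F q) (1 : Matrix K3h53.V K3h53.V ℂ) none) 0 ≠ 0 by rw [hm]; omega)
    (mulAt_eq_zero hg h)

end

end EY
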